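import Mathlib
import Pool.Agent.H31.Spec

set_option autoImplicit false
open Matrix Finset SimpleGraph

namespace Pool.Agent.Results.MP_6460d1_co.Unbounded

def N {m : ℕ} : Finset (Fin (m + 2)) ⊕ Fin (m + 2) × Fin (4 ^ m) → Finset (Fin (m + 2))
  | .inl T => if T = ∅ then univ else T
  | .inr a => {a.1}

def H (m : ℕ) : SimpleGraph (Fin (m + 2) ⊕ (Finset (Fin (m + 2)) ⊕ Fin (m + 2) × Fin (4 ^ m))) where
  Adj
    | .inl a, .inl b => a ≠ b
    | .inr _, .inr _ => False
    | .inl a, .inr s => a ∈ N s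
    | .inr s, .inl a => a ∈ N s
  symm := ⟨by rintro (a | a) (b | b) h; exacts [Ne.symm h, h, h, h]⟩
  loopless := ⟨by rintro (a | a) h; exacts [h rfl, h]⟩

instance (m : ℕ) : DecidableRel (H m).Adj := fun a b =>
  match a, b with
  | .inl a, .inl b => inferInstanceAs (Decidable (a ≠ b))
  | .inr _, .inr _ => isFalse id
  | .inl a, .inr s => inferInstanceAs (Decidable (a ∈ N s))
  | .inr s, .inl a => inferInstanceAs (Decidable (a ∈ N s))

theorem K {m : ℕ} (i : Fin (m + 2)) (x : Fin (m + 2) → ℝ) :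
    ∑ s, (if i ∈ N s then ∑ j ∈ N s, x j else 0) = (2 ^ m + 1) * (2 ^ m * x i + ∑ j, x j) := by
  have a : ∀ j, ∑ T : Finset (Fin (m + 2)), (if i ∈ T ∧ j ∈ T then (1 : ℝ) else 0) =
      2 ^ m + if j = i then 2 ^ m else 0 := fun j => by
    rw [sum_boole, show (univ.filter fun T => i ∈ T ∧ j ∈ T) = Icc {i, j} univ by
      ext; simp [insert_subset_iff], card_Icc_finset (subset_univ _)]
    by_cases h : j = i
    · simp [h, pow_succ]; ring
    · simp [h, card_pair (Ne.symm h)]
  have b : ∑ T : Finset (Fin (m + 2)), (if i ∈ T then ∑ j ∈ T, x j else 0) =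
      2 ^ m * (x i + ∑ j, x j) := by
    rw [sum_congr rfl (g := fun T => ∑ j, (if i ∈ T ∧ j ∈ T then 1 else 0) * x j) fun T _ => by
      by_cases h : i ∈ T <;> simp [h], sum_comm]
    simp only [← sum_mul, a]
    simp [add_mul, sum_add_distrib, ← mul_sum]; ring
  rw [Fintype.sum_sum_type, ← add_sum_erase _ _ (mem_univ ∅), sum_congr rfl
    (g := fun T => if i ∈ T then ∑ j ∈ T, x j else 0) fun T h => by simp [N, ne_of_mem_erase h],
    sum_erase _ (by simp), b]
  simp [N, Fintype.sum_prod_type, show (4 : ℝ) ^ m = 2 ^ m * 2 ^ m by rw [← mul_pow]; norm_num]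
  ring

theorem result (c : ℕ) : ∃ (V : Type) (_ : Fintype V) (_ : DecidableEq V) (G : SimpleGraph V)
    (_ : DecidableRel G.Adj), G.Connected ∧ (∃ C : Set V, G.IsClique C ∧ G.IsIndepSet Cᶜ) ∧
    G.diam = 3 ∧ (spectrum ℝ (G.adjMatrix ℝ)).ncard = 4 ∧
    c < (univ.image fun v => G.degree v).card := by
  obtain ⟨m, hm, m1⟩ : ∃ m, c ≤ m ∧ 0 < m := ⟨c + 1, by omega, by omega⟩
  have a0 : ∀ a b, ((H m).Adj (.inl a) (.inl b) ↔ a ≠ b) := fun _ _ => .rfl
  have a1 : ∀ a b, ((H m).Adj (.inr a) (.inr b) ↔ False) := fun _ _ => .rfl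
  have a2 : ∀ a b, ((H m).Adj (.inl a) (.inr b) ↔ a ∈ N b) := fun _ _ => .rfl
  have a3 : ∀ a b, ((H m).Adj (.inr a) (.inl b) ↔ b ∈ N a) := fun _ _ => .rfl
  have z : Fin (4 ^ m) := ⟨0, by positivity⟩
  have e1 : ∀ x i, ((H m).adjMatrix ℝ *ᵥ x) (.inl i) = ∑ j, x (.inl j) - x (.inl i) +
      ∑ s, if i ∈ N s then x (.inr s) else 0 := fun x i => by
    rw [adjMatrix_mulVec_apply, neighborFinset_eq_filter, sum_filter, Fintype.sum_sum_type]
    simp only [a0, a2, ← sum_filter, filter_ne, sum_erase_eq_sub (mem_univ _)]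
  have e2 : ∀ x s, ((H m).adjMatrix ℝ *ᵥ x) (.inr s) = ∑ j ∈ N s, x (.inl j) := fun x i => by
    rw [adjMatrix_mulVec_apply, neighborFinset_eq_filter, sum_filter, Fintype.sum_sum_type]
    simp [a1, a3]
  have d : (H m).ediam = 3 := by
    refine le_antisymm (ediam_le_of_edist_le fun u v => ?_) ((Order.add_one_le_of_lt
      (two_lt_edist_iff.mpr ⟨by simp, by simp [a1], ?_⟩ : (2 : ℕ∞) < (H m).edist (.inr (.inr (0, z)))
        (.inr (.inr (1, z))))).trans edist_le_ediam)
    · have t : ∀ u, ∃ a, (H m).edist u (.inl a) ≤ 1 := fun u => by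
        simp only [edist_le_one_iff_adj_or_eq]
        rcases u with u | T | u
        · exact ⟨u, Or.inr rfl⟩
        · rcases T.eq_empty_or_nonempty with rfl | ⟨a, h⟩
          exacts [⟨0, by simp [a3, N]⟩, ⟨a, by simp [a3, N, h, ne_empty_of_mem h]⟩]
        · exact ⟨u.1, by simp [a3, N]⟩
      obtain ⟨a, h1⟩ := t u
      obtain ⟨b, h2⟩ := t v
      have h3 : (H m).edist (.inl a) (.inl b) ≤ 1 := by
        simp [edist_le_one_iff_adj_or_eq, a0, em']
      rw [edist_comm] at h2
      exact (SimpleGraph.edist_triangle (v := Sum.inl a)).trans ((add_le_add h1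
        ((SimpleGraph.edist_triangle (v := Sum.inl b)).trans (add_le_add h3 h2))).trans_eq rfl)
    · ext (w | w) <;> simp +contextual [mem_commonNeighbors, a1, a3, N]
  have p1 : (2 : ℝ) ≤ 2 ^ m := by exact_mod_cast Nat.one_lt_two_pow m1.ne'
  have m0 : (0 : ℝ) ≤ m := by positivity
  have ev : ∀ (θ : ℝ) (x : Fin (m + 2) → ℝ), θ ≠ 0 → x 0 ≠ 0 → (∀ i, (θ + (2 ^ m + 1)) * ∑ j, x j =
      (θ + (2 ^ m + 1)) * (θ - 2 ^ m) * x i) → θ ∈ spectrum ℝ ((H m).adjMatrix ℝ) :=
    fun θ x h1 h2 h3 => H31.Spec.mem_spec (Sum.elim (θ • x) fun s => ∑ j ∈ N s, x j)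
      (fun h => by simpa [h1, h2] using congrFun h (.inl 0)) (funext fun v => by
        rcases v with v | v
        · simp only [e1, Sum.elim_inl, Sum.elim_inr, K, Pi.smul_apply, smul_eq_mul, ← mul_sum]
          linear_combination h3 v
        · simp [e2, mul_sum])
  refine ⟨_, inferInstance, inferInstance, H m, inferInstance, connected_of_ediam_ne_top (by simp [d]),
    ⟨Set.range .inl, ?_, ?_⟩, by rw [diam, d]; rfl, ?_, ?_⟩
  · rintro _ ⟨a, rfl⟩ _ ⟨b, rfl⟩ h
    exact fun e => h (e ▸ rfl)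
  · rintro (a | a) h (b | b) h' -
    exacts [(h ⟨a, rfl⟩).elim, (h ⟨a, rfl⟩).elim, (h' ⟨b, rfl⟩).elim, id]
  · rw [show spectrum ℝ ((H m).adjMatrix ℝ) = ({0, -(2 ^ m + 1), 2 ^ m, 2 ^ m + ((m : ℝ) + 2)} : Finset ℝ)
      from ?_, Set.ncard_coe_finset, card_eq_four]
    · exact ⟨_, _, _, _, by linarith, by linarith, by linarith, by linarith, by linarith,
        by linarith, rfl⟩
    ext θ
    simp only [coe_insert, coe_singleton, Set.mem_insert_iff, Set.mem_singleton_iff]
    constructor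
    · intro h
      obtain ⟨x, x0, hx⟩ := H31.Spec.eigvec h
      by_contra c
      push Not at c
      have f2 : ∀ s, θ * x (.inr s) = ∑ j ∈ N s, x (.inl j) := fun s => by
        simpa [e2, -adjMatrix_mulVec_apply] using (congrFun hx (.inr s)).symm
      have f1 : ∀ i, ∑ j, x (.inl j) = (θ - 2 ^ m) * x (.inl i) := fun i => by
        have := congrArg (θ * ·) (congrFun hx (.inl i))
        simp only [e1, mul_add, mul_sum, mul_ite, mul_zero, f2, K i fun j => x (.inl j),
          Pi.smul_apply, smul_eq_mul] at this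
        simp only [← mul_sum] at this
        exact mul_left_cancel₀ (a := θ + (2 ^ m + 1)) (fun e => c.2.1 (by linarith))
          (by linear_combination this)
      have f3 := sum_congr rfl fun i (_ : i ∈ univ) => f1 i
      rw [← mul_sum, sum_const, card_fin, nsmul_eq_mul] at f3
      have f4 : ∑ j, x (.inl j) = 0 := by
        by_contra e
        exact c.2.2.2 (by have := mul_right_cancel₀ e f3; push_cast at this; linarith)
      have f5 : ∀ i, x (.inl i) = 0 := fun i => by simpa [f4, sub_eq_zero, c.2.2.1] using f1 i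
      exact x0 (funext fun v => by
        rcases v with v | v
        exacts [f5 v, by simpa [f5, c.1] using f2 v])
    · rintro (rfl | rfl | rfl | rfl)
      · refine H31.Spec.mem_spec (Pi.single (.inr (.inl {0})) 1 - Pi.single (.inr (.inr (0, z))) 1)
          (fun h => by simpa using congrFun h (.inr (.inl {0}))) (funext ?_)
        rintro (v | v) <;> simp [mulVec_sub, -adjMatrix_mulVec_apply, a1, a2, N]
      · exact ev _ (fun _ => 1) (by linarith) one_ne_zero (by simp)
      · exact ev _ (Pi.single 0 1 - Pi.single 1 1) (by linarith) (by simp) (by simp)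
      · exact ev _ (fun _ => 1) (by linarith) one_ne_zero fun _ => by simp
  · refine lt_of_lt_of_le (by simp; omega) (card_le_card (s := Icc 1 (m + 2)) fun k hk => ?_)
    rw [mem_Icc] at hk
    obtain ⟨T, -, rfl⟩ := exists_subset_card_eq (s := (univ : Finset (Fin (m + 2)))) (n := k)
      (by simpa using hk.2)
    refine mem_image.mpr ⟨.inr (.inl T), mem_univ _, ?_⟩
    rw [← card_neighborFinset_eq_degree, neighborFinset_eq_filter, card_filter, Fintype.sum_sum_type]
    simp [a1, a3, N, card_ne_zero.mp (by omega : T.card ≠ 0) |>.ne_empty]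

end Pool.Agent.Results.MP_6460d1_co.Unbounded
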